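import Mathlib

/-!
Dirichlet series whose partial sums are at most logarithmic are holomorphic for `Re s > 0`.
-/

set_option autoImplicit false

namespace Pool.Agent.H414.E

open Finset Filter Topology MeasureTheory Set Asymptotics

/-- The partial sums, as a function of a real variable. -/
noncomputable def psum (a : ℕ → ℂ) (t : ℝ) : ℂ := ∑ k ∈ Icc 1 ⌊t⌋₊, a k

theorem psum_measurable (a : ℕ → ℂ) : Measurable (psum a) :=
  (measurable_from_nat (f := fun N : ℕ => ∑ k ∈ Icc 1 N, a k)).comp Nat.measurable_floor

theorem psum_le (a : ℕ → ℂ) (C : ℝ) (h0 : a 0 = 0)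
    (h : ∀ N : ℕ, ‖∑ n ∈ range N, a n‖ ≤ C * (1 + Real.log (N + 1))) (t : ℝ) (ht : 0 ≤ t) :
    ‖psum a t‖ ≤ C * (1 + Real.log (t + 2)) := by
  have hC : 0 ≤ C := by
    have := h 0
    simp at this
    exact this
  have h1 : psum a t = ∑ n ∈ range (⌊t⌋₊ + 1), a n := by
    rw [psum]
    refine Finset.sum_subset (fun k hk => ?_) fun k hk hk' => ?_
    · simp only [Finset.mem_Icc, Finset.mem_range] at hk ⊢
      omega
    · simp only [Finset.mem_Icc, Finset.mem_range] at hk hk'
      have : k = 0 := by omega
      rw [this, h0]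
  rw [h1]
  refine (h _).trans ?_
  have h2 := Nat.floor_le ht
  have h3 : Real.log (((⌊t⌋₊ + 1 : ℕ) : ℝ) + 1) ≤ Real.log (t + 2) :=
    Real.log_le_log (by positivity) (by push_cast; linarith)
  exact mul_le_mul_of_nonneg_left (by linarith) hC

theorem dser (a : ℕ → ℂ) (C C' : ℝ) (h0 : a 0 = 0) (hC' : ∀ n, ‖a n‖ ≤ C')
    (h : ∀ N : ℕ, ‖∑ n ∈ range N, a n‖ ≤ C * (1 + Real.log (N + 1))) :
    ∃ D : ℂ → ℂ, DifferentiableOn ℂ D {s | 0 < s.re} ∧ ∀ s : ℂ, 1 < s.re →
      LSeries a s = D s := by
  set g : ℝ → ℂ := (Set.Ioi (1 : ℝ)).indicator (psum a) with hg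
  have hgm : Measurable g := (psum_measurable a).indicator measurableSet_Ioi
  have hC : 0 ≤ C := by
    have := h 0
    simp at this
    exact this
  have hgO : ∀ ε : ℝ, 0 < ε → g =O[atTop] fun t => t ^ ε := by
    intro ε hε
    have h1 : g =O[atTop] fun t : ℝ => C * (1 + Real.log (t + 2)) := by
      refine IsBigO.of_bound 1 ?_
      filter_upwards [eventually_gt_atTop (1 : ℝ)] with t ht
      rw [hg, Set.indicator_of_mem (Set.mem_Ioi.2 ht), one_mul]
      exact (psum_le a C h0 h t (by linarith)).trans (le_abs_self _)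
    refine h1.trans ?_
    refine IsBigO.const_mul_left ?_ C
    refine IsBigO.add ?_ ?_
    · refine IsBigO.of_bound 1 ?_
      filter_upwards [eventually_ge_atTop (1 : ℝ)] with t ht
      have : 1 ≤ t ^ ε := Real.one_le_rpow ht hε.le
      rw [Real.norm_eq_abs, Real.norm_eq_abs, abs_of_nonneg (by positivity),
        abs_of_nonneg (by positivity)]
      simpa using this
    · have h2 : (fun t : ℝ => Real.log (t + 2)) =O[atTop] fun t : ℝ => (t + 2) ^ ε :=
        ((isLittleO_log_rpow_atTop hε).isBigO).comp_tendsto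
          (tendsto_atTop_add_const_right _ _ tendsto_id)
      refine h2.trans (IsBigO.of_bound (3 ^ ε) ?_)
      filter_upwards [eventually_ge_atTop (1 : ℝ)] with t ht
      rw [Real.norm_eq_abs, Real.norm_eq_abs, abs_of_nonneg (by positivity),
        abs_of_nonneg (by positivity), ← Real.mul_rpow (by norm_num) (by linarith)]
      exact Real.rpow_le_rpow (by linarith) (by linarith) hε.le
  have hloc : LocallyIntegrableOn g (Set.Ioi 0) := by
    refine (locallyIntegrable_iff.2 fun K hK => ?_).locallyIntegrableOn _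
    obtain ⟨R, hR⟩ := hK.isBounded.subset_closedBall 0
    refine (Measure.integrableOn_of_bounded (M := C * (1 + Real.log (|R| + 2)))
      (measure_closedBall_lt_top (x := (0 : ℝ)) (r := R)).ne hgm.aestronglyMeasurable
      ?_).mono_set hR
    refine (ae_restrict_iff' measurableSet_closedBall).2 (ae_of_all _ fun t ht => ?_)
    rw [Metric.mem_closedBall, dist_zero_right, Real.norm_eq_abs] at ht
    have hR0 : |t| ≤ |R| := ht.trans (le_abs_self _)
    have h3 : (0 : ℝ) ≤ Real.log (|R| + 2) := Real.log_nonneg (by linarith [abs_nonneg R])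
    by_cases h1 : 1 < t
    · rw [hg, Set.indicator_of_mem (Set.mem_Ioi.2 h1)]
      refine (psum_le a C h0 h t (by linarith)).trans ?_
      have := le_abs_self t
      gcongr
      linarith
    · rw [hg, Set.indicator_of_notMem (by simpa using h1), norm_zero]
      positivity
  refine ⟨fun s => s * mellin g (-s), ?_, ?_⟩
  · intro s hs
    refine DifferentiableAt.differentiableWithinAt ?_
    refine differentiableAt_id.mul ?_
    have h1 : DifferentiableAt ℂ (mellin g) (-s) := by
      have hs' : 0 < s.re := hs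
      refine mellin_differentiableAt_of_isBigO_rpow (a := -(s.re / 2)) (b := -s.re - 1) hloc ?_ ?_
        ?_ ?_
      · simpa using hgO (s.re / 2) (by linarith)
      · rw [Complex.neg_re]; linarith
      · refine IsBigO.of_bound 1 ?_
        filter_upwards [Ioo_mem_nhdsGT (show (0 : ℝ) < 1 by norm_num)] with t ht
        rw [hg, Set.indicator_of_notMem (by simpa using ht.2.le), norm_zero]
        positivity
      · rw [Complex.neg_re]; linarith
    exact h1.comp s differentiableAt_id.neg
  · intro s hs
    have hsum : LSeriesSummable a s := by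
      refine LSeriesSummable_of_bounded_of_one_lt_re (m := C') (fun n _ => hC' n) hs
    have hO : (fun n : ℕ => ∑ k ∈ Icc 1 n, a k) =O[atTop] fun n : ℕ => (n : ℝ) ^ (1 / 2 : ℝ) := by
      have := (hgO (1 / 2) (by norm_num)).comp_tendsto tendsto_natCast_atTop_atTop
      refine (this.congr' ?_ EventuallyEq.rfl)
      filter_upwards [eventually_gt_atTop 1] with n hn
      have hn' : (1 : ℝ) < n := by exact_mod_cast hn
      simp [hg, psum, Function.comp, hn]
    rw [LSeries_eq_mul_integral a (by norm_num) (by linarith) hsum hO]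
    congr 1
    rw [mellin, ← integral_indicator measurableSet_Ioi, ← integral_indicator measurableSet_Ioi]
    congr 1
    funext t
    by_cases h1 : 1 < t
    · have h2 : t ∈ Set.Ioi (1 : ℝ) := h1
      have h3 : t ∈ Set.Ioi (0 : ℝ) := by
        rw [Set.mem_Ioi]; linarith
      rw [Set.indicator_of_mem h2, Set.indicator_of_mem h3, hg, Set.indicator_of_mem h2, psum,
        smul_eq_mul, mul_comm]
      congr 2
      ring
    · have h2 : t ∉ Set.Ioi (1 : ℝ) := h1
      rw [Set.indicator_of_notMem h2]
      by_cases h3 : t ∈ Set.Ioi (0 : ℝ)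
      · rw [Set.indicator_of_mem h3, hg, Set.indicator_of_notMem h2, smul_zero]
      · rw [Set.indicator_of_notMem h3]

end Pool.Agent.H414.E
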