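import Mathlib

/-!
Logarithms of Euler products.
-/

set_option autoImplicit false

namespace Pool.Agent.H414.E

open Finset Filter Topology

/-- The error term of the logarithm of a local factor. -/
noncomputable def gt (z : ℂ) : ℂ := -Complex.log (1 - z) - z

theorem gt_le {z : ℂ} (hz : ‖z‖ ≤ 3 / 4) : ‖gt z‖ ≤ 2 * ‖z‖ ^ 2 := by
  have h1 : ‖-z‖ < 1 := by rw [norm_neg]; linarith
  have h2 := Complex.norm_log_one_add_sub_self_le h1
  rw [norm_neg] at h2
  have h3 : gt z = -(Complex.log (1 + -z) - -z) := by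
    rw [gt, ← sub_eq_add_neg]
    ring
  rw [h3, norm_neg]
  refine h2.trans ?_
  have h4 : (1 - ‖z‖)⁻¹ ≤ 4 := by
    rw [inv_le_comm₀ (by linarith) (by norm_num)]
    linarith
  nlinarith [sq_nonneg ‖z‖]

theorem gt_diff {z : ℂ} (hz : ‖z‖ ≤ 3 / 4) : DifferentiableAt ℂ gt z := by
  have h1 : (1 - z) ∈ Complex.slitPlane := by
    rw [sub_eq_add_neg]
    refine Complex.mem_slitPlane_of_norm_lt_one ?_
    rw [norm_neg]
    linarith
  unfold gt
  exact (((differentiableAt_const (1 : ℂ)).sub differentiableAt_id).clog h1).neg.sub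
    differentiableAt_id

theorem norm_cpow_prime (p : Nat.Primes) (s : ℂ) : ‖(p : ℂ) ^ (-s)‖ = (p : ℝ) ^ (-s.re) := by
  have hp : 0 < (p : ℕ) := p.2.pos
  rw [Complex.norm_natCast_cpow_of_pos hp, Complex.neg_re]

theorem small {b : ℝ} {p : Nat.Primes} (h2 : b * (p : ℝ) ^ (-(1 / 2) : ℝ) ≤ 3 / 4)
    (hb : 0 ≤ b) {s : ℂ} (hs : 1 / 2 ≤ s.re) {z : ℂ} (hz : ‖z‖ ≤ b) :
    ‖z * (p : ℂ) ^ (-s)‖ ≤ 3 / 4 := by
  rw [norm_mul, norm_cpow_prime]
  refine le_trans ?_ h2
  refine mul_le_mul hz ?_ (by positivity) hb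
  refine Real.rpow_le_rpow_of_exponent_le ?_ (by linarith)
  exact_mod_cast p.2.one_lt.le

theorem euler {ι : Type*} [Fintype ι] (B : Nat.Primes → ι → ℂ) (R : ℝ)
    (h1 : ∀ p l, ‖B p l‖ ≤ R)
    (h2 : ∀ p l, ‖B p l‖ * (p : ℝ) ^ (-(1 / 2) : ℝ) ≤ 3 / 4) :
    ∃ h : ℂ → ℂ, DifferentiableOn ℂ h {s | 1 / 2 < s.re} ∧ ∀ s : ℂ, 1 < s.re →
      Summable (fun p : Nat.Primes => ∑ l, B p l * (p : ℂ) ^ (-s)) ∧
      HasSum (fun p : Nat.Primes => ∑ l, -Complex.log (1 - B p l * (p : ℂ) ^ (-s)))
        (∑' p : Nat.Primes, ∑ l, B p l * (p : ℂ) ^ (-s) + h s) ∧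
      HasProd (fun p : Nat.Primes => ∏ l, (1 - B p l * (p : ℂ) ^ (-s))⁻¹)
        (Complex.exp (∑' p : Nat.Primes, ∑ l, B p l * (p : ℂ) ^ (-s) + h s)) := by
  have hsm : ∀ (p : Nat.Primes) l {s : ℂ}, 1 / 2 ≤ s.re → ‖B p l * (p : ℂ) ^ (-s)‖ ≤ 3 / 4 :=
    fun p l s hs => small (h2 p l) (norm_nonneg _) hs le_rfl
  set F : Nat.Primes → ℂ → ℂ := fun p s => ∑ l, gt (B p l * (p : ℂ) ^ (-s)) with hF
  have hbd : ∀ (p : Nat.Primes) {s : ℂ}, 1 / 2 ≤ s.re →
      ‖F p s‖ ≤ Fintype.card ι * (2 * R ^ 2) * (p : ℝ) ^ (-(2 * s.re)) := by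
    intro p s hs
    calc ‖F p s‖ ≤ ∑ l : ι, 2 * R ^ 2 * (p : ℝ) ^ (-(2 * s.re)) := by
          refine (norm_sum_le _ _).trans (Finset.sum_le_sum fun l _ => ?_)
          refine (gt_le (hsm p l hs)).trans ?_
          rw [norm_mul, mul_pow, norm_cpow_prime, ← Real.rpow_natCast, ← Real.rpow_natCast,
            ← Real.rpow_mul (by positivity), ← mul_assoc]
          have h3 : ‖B p l‖ ^ ((2 : ℕ) : ℝ) ≤ R ^ ((2 : ℕ) : ℝ) := by
            rw [Real.rpow_natCast, Real.rpow_natCast]
            exact pow_le_pow_left₀ (norm_nonneg _) (h1 p l) 2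
          have h4 : -s.re * ((2 : ℕ) : ℝ) = -(2 * s.re) := by push_cast; ring
          rw [h4]
          rw [← Real.rpow_natCast R]
          gcongr
      _ = _ := by
          rw [Finset.sum_const, Finset.card_univ, nsmul_eq_mul]
          ring
  have hsummable : ∀ r : ℝ, 1 < r → Summable fun p : Nat.Primes => (p : ℝ) ^ (-r) := fun r hr =>
    Nat.Primes.summable_rpow.2 (by linarith)
  have hFs : ∀ {s : ℂ}, 1 / 2 < s.re → Summable fun p => F p s := by
    intro s hs
    refine Summable.of_norm_bounded (g := fun p : Nat.Primes =>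
      Fintype.card ι * (2 * R ^ 2) * (p : ℝ) ^ (-(2 * s.re))) ((hsummable _ (by linarith)).mul_left _)
      fun p => hbd p hs.le
  refine ⟨fun s => ∑' p, F p s, ?_, fun s hs => ?_⟩
  · intro s hs
    have hs' : 1 / 2 < s.re := hs
    set δ : ℝ := (s.re + 1 / 2) / 2 with hδ
    have hd1 : 1 / 2 < δ := by rw [hδ]; linarith
    have hd2 : δ < s.re := by rw [hδ]; linarith
    have hopen : IsOpen {z : ℂ | δ < z.re} := isOpen_lt continuous_const Complex.continuous_re
    have h3 : DifferentiableOn ℂ (fun z => ∑' p, F p z) {z : ℂ | δ < z.re} := by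
      refine Complex.differentiableOn_tsum_of_summable_norm (u := fun p : Nat.Primes =>
        Fintype.card ι * (2 * R ^ 2) * (p : ℝ) ^ (-(2 * δ))) ((hsummable _ (by linarith)).mul_left _)
        (fun p => ?_) hopen fun p z hz => ?_
      · intro z hz
        have hz' : δ < z.re := hz
        refine DifferentiableAt.differentiableWithinAt ?_
        rw [hF]
        refine DifferentiableAt.fun_sum fun l _ => ?_
        have h4 : DifferentiableAt ℂ (fun z : ℂ => B p l * (p : ℂ) ^ (-z)) z := by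
          refine DifferentiableAt.const_mul ?_ _
          refine DifferentiableAt.const_cpow differentiableAt_id.neg ?_
          left
          exact_mod_cast p.2.ne_zero
        exact (gt_diff (hsm p l (by linarith))).comp z h4
      · have hz' : δ < z.re := hz
        refine (hbd p (by linarith)).trans ?_
        refine mul_le_mul_of_nonneg_left ?_ (by positivity)
        refine Real.rpow_le_rpow_of_exponent_le ?_ (by linarith)
        exact_mod_cast p.2.one_lt.le
    exact (h3.differentiableAt (hopen.mem_nhds hd2)).differentiableWithinAt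
  · have h3 : Summable (fun p : Nat.Primes => ∑ l, B p l * (p : ℂ) ^ (-s)) := by
      refine Summable.of_norm_bounded (g := fun p : Nat.Primes => Fintype.card ι * R * (p : ℝ) ^ (-s.re))
        ((hsummable _ hs).mul_left _) fun p => ?_
      calc _ ≤ ∑ l : ι, R * (p : ℝ) ^ (-s.re) := by
            refine (norm_sum_le _ _).trans (Finset.sum_le_sum fun l _ => ?_)
            rw [norm_mul, norm_cpow_prime]
            exact mul_le_mul_of_nonneg_right (h1 p l) (by positivity)
        _ = _ := by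
            rw [Finset.sum_const, Finset.card_univ, nsmul_eq_mul]
            ring
    have h4 : HasSum (fun p : Nat.Primes => ∑ l, -Complex.log (1 - B p l * (p : ℂ) ^ (-s)))
        (∑' p : Nat.Primes, ∑ l, B p l * (p : ℂ) ^ (-s) + ∑' p, F p s) := by
      have h5 := h3.hasSum.add (hFs (by linarith : 1 / 2 < s.re)).hasSum
      refine h5.congr_fun ?_ |> fun h => h
      intro p
      rw [hF]
      simp only [gt]
      rw [← Finset.sum_add_distrib]
      refine Finset.sum_congr rfl fun l _ => ?_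
      ring
    refine ⟨h3, h4, ?_⟩
    have h5 := h4.cexp
    refine h5.congr_fun ?_ |> fun h => h
    intro p
    simp only [Function.comp]
    rw [Complex.exp_sum]
    refine Finset.prod_congr rfl fun l _ => ?_
    rw [Complex.exp_neg, Complex.exp_log]
    intro h6
    have h7 := hsm p l (s := s) (by linarith)
    have h8 : B p l * (p : ℂ) ^ (-s) = 1 := (sub_eq_zero.1 h6).symm
    rw [h8] at h7
    norm_num at h7

end Pool.Agent.H414.E
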