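import Pool.Agent.H414.E.Stage
import Pool.Agent.H414.E.Dser
import Pool.Agent.H414.E.Euler

/-!
Systems of parameters with prescribed means and their `L`-functions.
-/

set_option autoImplicit false

namespace Pool.Agent.H414.E

open Finset Filter Topology

/-- The system `x` follows the weights `w` at the atoms `y`, the stage of `p` being `st p`. -/
structure Follows {X : Type*} (n : ℕ → ℕ) (w : (m : ℕ) → Fin (n m) → ℝ)
    (y : (m : ℕ) → Fin (n m) → X) (N0 : ℕ) (x : ℕ → X) (st : ℕ → ℕ) : Prop where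
  nonneg : ∀ m i, 0 ≤ w m i
  one : ∀ m, ∑ i, w m i = 1
  top : Tendsto st atTop atTop
  zero : ∀ p < N0, st p = 0
  mem : ∀ p, ∃ j, x p = y (st p) j
  disc : ∀ q : ℕ, 0 < q → ∃ C : ℝ, ∀ G : ℕ → ℂ, (∀ p, ‖G p‖ ≤ 1) →
    (∀ p p', p % q = p' % q → G p = G p') → ∀ (f : X → ℂ) (M : ℝ),
    (∀ m j, ‖f (y m j)‖ ≤ M) → ∀ N : ℕ,
    ‖∑ p ∈ (range N).filter Nat.Prime, G p * (f (x p) - mean w y (st p) f)‖ ≤
      M * (C + KK n (st N))
  log : ∀ N, st N = 0 ∨ KK n (st N) ≤ Real.log (N + 1)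
  pi : ∀ N q a, q ≤ st N → a < q → a.Coprime q → (st N + 1) * KK n (st N) ≤ piA N q a

theorem exists_follows {X : Type*} (n : ℕ → ℕ) (w : (m : ℕ) → Fin (n m) → ℝ)
    (y : (m : ℕ) → Fin (n m) → X) (hw : ∀ m i, 0 ≤ w m i) (hs : ∀ m, ∑ i, w m i = 1) (N0 : ℕ) :
    ∃ (x : ℕ → X) (st : ℕ → ℕ), Follows n w y N0 x st := by
  obtain ⟨x, st, h1, h2, h3, h4, h5, h6⟩ := main n w y hw hs N0
  exact ⟨x, st, hw, hs, h1, h2, h3, h4, h5, h6⟩

namespace Follows
variable {X : Type*} {n : ℕ → ℕ} {w : (m : ℕ) → Fin (n m) → ℝ}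
  {y : (m : ℕ) → Fin (n m) → X} {N0 : ℕ} {x : ℕ → X} {st : ℕ → ℕ}
  (S : Follows n w y N0 x st)
include S

theorem M_nonneg {f : X → ℂ} {M : ℝ} (hM : ∀ m j, ‖f (y m j)‖ ≤ M) : 0 ≤ M := by
  obtain ⟨j, -⟩ := S.mem 0
  exact (norm_nonneg _).trans (hM (st 0) j)

theorem x_le {f : X → ℂ} {M : ℝ} (hM : ∀ m j, ‖f (y m j)‖ ≤ M) (p : ℕ) : ‖f (x p)‖ ≤ M := by
  obtain ⟨j, hj⟩ := S.mem p
  rw [hj]
  exact hM _ _

/-- Logarithmic discrepancy for functions with a constant mean. -/
theorem disc_const (q : ℕ) (hq : 0 < q) (G : ℕ → ℂ) (hG : ∀ p, ‖G p‖ ≤ 1)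
    (hper : ∀ p p', p % q = p' % q → G p = G p') (f : X → ℂ) (M : ℝ)
    (hM : ∀ m j, ‖f (y m j)‖ ≤ M) (c : ℂ) (m0 : ℕ) (hc : ∀ m, m0 ≤ m → mean w y m f = c) :
    ∃ C : ℝ, ∀ N : ℕ, ‖∑ p ∈ (range N).filter Nat.Prime, G p * (f (x p) - c)‖ ≤
      C * (1 + Real.log (N + 1)) := by
  have hM0 := S.M_nonneg hM
  obtain ⟨C, hC⟩ := S.disc q hq
  obtain ⟨B, hB⟩ := eventually_atTop.1 (S.top.eventually_ge_atTop m0)
  have hcM : ‖c‖ ≤ M := by
    rw [← hc m0 le_rfl]
    exact mean_le S.nonneg S.one f M hM m0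
  refine ⟨M * (|C| + KK n 0 + 1) + B * (2 * M), fun N => ?_⟩
  have h1 : ∑ p ∈ (range N).filter Nat.Prime, G p * (f (x p) - c) =
      ∑ p ∈ (range N).filter Nat.Prime, G p * (f (x p) - mean w y (st p) f) +
      ∑ p ∈ (range N).filter Nat.Prime, G p * (mean w y (st p) f - c) := by
    rw [← Finset.sum_add_distrib]
    exact Finset.sum_congr rfl fun p _ => by ring
  have h2 : ‖∑ p ∈ (range N).filter Nat.Prime, G p * (mean w y (st p) f - c)‖ ≤ B * (2 * M) := by
    have h3 : ∑ p ∈ (range N).filter Nat.Prime, G p * (mean w y (st p) f - c) =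
        ∑ p ∈ ((range N).filter Nat.Prime).filter (fun p => p < B),
          G p * (mean w y (st p) f - c) := by
      rw [Finset.sum_filter (p := fun p => p < B)]
      refine Finset.sum_congr rfl fun p _ => ?_
      split_ifs with h
      · rfl
      · rw [hc (st p) (hB p (by omega)), sub_self, mul_zero]
    rw [h3]
    calc _ ≤ ∑ p ∈ ((range N).filter Nat.Prime).filter (fun p => p < B), 2 * M := by
          refine (norm_sum_le _ _).trans (Finset.sum_le_sum fun p _ => ?_)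
          rw [norm_mul]
          calc _ ≤ 1 * (2 * M) := by
                refine mul_le_mul (hG p) ?_ (norm_nonneg _) zero_le_one
                refine (norm_sub_le _ _).trans ?_
                have := mean_le S.nonneg S.one f M hM (st p)
                linarith
            _ = _ := one_mul _
      _ = ((((range N).filter Nat.Prime).filter (fun p => p < B)).card : ℝ) * (2 * M) := by
          rw [Finset.sum_const, nsmul_eq_mul]
      _ ≤ _ := by
          refine mul_le_mul_of_nonneg_right ?_ (by positivity)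
          norm_cast
          calc _ ≤ (range B).card := Finset.card_le_card fun p hp => by
                simp only [Finset.mem_filter, Finset.mem_range] at hp ⊢
                exact hp.2
            _ = B := Finset.card_range _
  have hl : 0 ≤ Real.log (N + 1) := Real.log_nonneg (by
    have : (0 : ℝ) ≤ N := Nat.cast_nonneg _
    linarith)
  have hK : KK n (st N) ≤ KK n 0 + Real.log (N + 1) := by
    rcases S.log N with h | h
    · rw [h]; linarith
    · have := KK_nonneg n 0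
      linarith
  have h4 := hC G hG hper f M hM N
  rw [h1]
  refine (norm_add_le _ _).trans ?_
  have h5 : M * (C + KK n (st N)) ≤ M * ((|C| + KK n 0 + 1) * (1 + Real.log (N + 1))) := by
    refine mul_le_mul_of_nonneg_left ?_ hM0
    have h6 := le_abs_self C
    have h7 := KK_nonneg n 0
    nlinarith [abs_nonneg C, mul_nonneg (abs_nonneg C) hl, mul_nonneg h7 hl]
  have h8 : (B : ℝ) * (2 * M) ≤ B * (2 * M) * (1 + Real.log (N + 1)) := by
    refine le_mul_of_one_le_right (by positivity) (by linarith)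
  calc _ ≤ M * ((|C| + KK n 0 + 1) * (1 + Real.log (N + 1))) +
        B * (2 * M) * (1 + Real.log (N + 1)) :=
        add_le_add (h4.trans h5) (h2.trans h8)
    _ = _ := by ring

/-- The Dirichlet series of a function with a constant mean, twisted by a character. -/
theorem series {q : ℕ} [NeZero q] (χ : DirichletCharacter ℂ q) (f : X → ℂ) (M : ℝ)
    (hM : ∀ m j, ‖f (y m j)‖ ≤ M) (c : ℂ) (m0 : ℕ) (hc : ∀ m, m0 ≤ m → mean w y m f = c) :
    ∃ D : ℂ → ℂ, DifferentiableOn ℂ D {s | 0 < s.re} ∧ ∀ s : ℂ, 1 < s.re →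
      ∑' p : Nat.Primes, f (x p) * χ p * (p : ℂ) ^ (-s) =
        D s + c * ∑' p : Nat.Primes, χ p * (p : ℂ) ^ (-s) := by
  classical
  have hM0 := S.M_nonneg hM
  have hcM : ‖c‖ ≤ M := by
    rw [← hc m0 le_rfl]
    exact mean_le S.nonneg S.one f M hM m0
  obtain ⟨C, hC⟩ := S.disc_const q (Nat.pos_of_ne_zero (NeZero.ne q)) (fun p => χ p)
    (fun p => χ.norm_le_one _) (fun p p' h => by
      rw [(ZMod.natCast_eq_natCast_iff' p p' q).2 h]) f M hM c m0 hc
  set a : ℕ → ℂ := fun p => if p.Prime then χ p * (f (x p) - c) else 0 with ha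
  have hap : ∀ p : ℕ, ‖a p‖ ≤ 2 * M := by
    intro p
    simp only [ha]
    split_ifs
    · rw [norm_mul]
      calc _ ≤ 1 * (2 * M) := by
            refine mul_le_mul (χ.norm_le_one _) ?_ (norm_nonneg _) zero_le_one
            refine (norm_sub_le _ _).trans ?_
            have := S.x_le hM p
            linarith
        _ = _ := one_mul _
    · rw [norm_zero]; positivity
  obtain ⟨D, hD1, hD2⟩ := dser a C (2 * M) (by simp [ha, Nat.not_prime_zero]) hap (fun N => by
    have := hC N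
    rw [Finset.sum_filter] at this
    exact this)
  refine ⟨D, hD1, fun s hs => ?_⟩
  have h1 : LSeries a s = ∑' p : Nat.Primes, χ p * (f (x p) - c) * (p : ℂ) ^ (-s) := by
    rw [LSeries, ← Function.Injective.tsum_eq (g := ((↑) : Nat.Primes → ℕ))
      Nat.Primes.coe_nat_injective]
    · refine tsum_congr fun p => ?_
      rw [LSeries.term_of_ne_zero p.2.ne_zero, ha]
      simp only [if_pos p.2]
      rw [Complex.cpow_neg, div_eq_mul_inv]
    · intro p hp
      by_contra h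
      refine hp ?_
      have hnp : ¬ p.Prime := fun hp' => h ⟨⟨p, hp'⟩, rfl⟩
      by_cases hp0 : p = 0
      · rw [hp0, LSeries.term_zero]
      · rw [LSeries.term_of_ne_zero hp0, ha]
        simp [hnp]
  have hsum : ∀ b : Nat.Primes → ℂ, ∀ K : ℝ, (∀ p, ‖b p‖ ≤ K) →
      Summable fun p : Nat.Primes => b p * (p : ℂ) ^ (-s) := by
    intro b K hb
    refine Summable.of_norm_bounded (g := fun p : Nat.Primes => K * (p : ℝ) ^ (-s.re))
      ((Nat.Primes.summable_rpow.2 (by linarith)).mul_left _) fun p => ?_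
    rw [norm_mul, norm_cpow_prime]
    exact mul_le_mul_of_nonneg_right (hb p) (by positivity)
  rw [← hD2 s hs, h1, ← tsum_mul_left, ← Summable.tsum_add]
  · refine tsum_congr fun p => ?_
    ring
  · refine hsum _ (2 * M) fun p => ?_
    have := hap p
    simp only [ha, if_pos p.2] at this
    exact this
  · exact (hsum _ 1 fun p => χ.norm_le_one _).mul_left c

/-- The twisted `L`-function of a system of parameters. -/
theorem lfun {q : ℕ} [NeZero q] (χ : DirichletCharacter ℂ q) {ι : Type*} [Fintype ι] (A : X → ι → ℂ)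
    (R : ℝ) (hR : 0 ≤ R) (hA : ∀ m j l, ‖A (y m j) l‖ ≤ R) (hA0 : ∀ j l, ‖A (y 0 j) l‖ ≤ 1)
    (hN0 : 2 * R ^ 2 ≤ N0) (c : ℂ) (m0 : ℕ)
    (hc : ∀ m, m0 ≤ m → mean w y m (fun t => ∑ l, A t l) = c) :
    ∃ h : ℂ → ℂ, DifferentiableOn ℂ h {s | 1 / 2 < s.re} ∧ ∀ s : ℂ, 1 < s.re →
      HasProd (fun p : Nat.Primes => ∏ l, (1 - A (x p) l * χ p * (p : ℂ) ^ (-s))⁻¹)
        (Complex.exp (c * (∑' p : Nat.Primes, -Complex.log (1 - χ p * (p : ℂ) ^ (-s))) + h s)) := by
  have hM : ∀ m j, ‖(fun t => ∑ l, A t l) (y m j)‖ ≤ Fintype.card ι * R := by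
    intro m j
    calc _ ≤ ∑ l : ι, R := (norm_sum_le _ _).trans (Finset.sum_le_sum fun l _ => hA m j l)
      _ = _ := by rw [Finset.sum_const, Finset.card_univ, nsmul_eq_mul]
  obtain ⟨D, hD1, hD2⟩ := S.series χ (fun t => ∑ l, A t l) (Fintype.card ι * R) hM c m0 hc
  have hbase : ∀ (p : Nat.Primes), (p : ℝ) ^ (-(1 / 2) : ℝ) ≤ 3 / 4 := by
    intro p
    have h2 : (2 : ℝ) ≤ p := by exact_mod_cast p.2.two_le
    calc (p : ℝ) ^ (-(1 / 2) : ℝ) ≤ (2 : ℝ) ^ (-(1 / 2) : ℝ) :=
          Real.rpow_le_rpow_of_nonpos (by norm_num) h2 (by norm_num)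
      _ ≤ 3 / 4 := by
          rw [Real.rpow_neg (by norm_num), ← Real.sqrt_eq_rpow, inv_le_comm₀ (by positivity)
            (by norm_num)]
          apply Real.le_sqrt_of_sq_le
          norm_num
  have hx : ∀ (p : Nat.Primes) l, ‖A (x p) l * χ p‖ * (p : ℝ) ^ (-(1 / 2) : ℝ) ≤ 3 / 4 := by
    intro p l
    have h1 : ‖A (x p) l * χ p‖ ≤ ‖A (x p) l‖ := by
      rw [norm_mul]
      exact mul_le_of_le_one_right (norm_nonneg _) (χ.norm_le_one _)
    refine (mul_le_mul_of_nonneg_right h1 (by positivity)).trans ?_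
    by_cases hp : (p : ℕ) < N0
    · have h9 : ∀ m, st p = m → ∃ j, x p = y m j := by
        rintro m rfl
        exact S.mem p
      obtain ⟨j, hj⟩ := h9 0 (S.zero p hp)
      rw [hj]
      calc _ ≤ 1 * (p : ℝ) ^ (-(1 / 2) : ℝ) :=
            mul_le_mul_of_nonneg_right (hA0 j l) (by positivity)
        _ = (p : ℝ) ^ (-(1 / 2) : ℝ) := one_mul _
        _ ≤ _ := hbase p
    · obtain ⟨j, hj⟩ := S.mem p
      rw [hj]
      push Not at hp
      have h3 : (2 : ℝ) * R ^ 2 ≤ p := hN0.trans (by exact_mod_cast hp)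
      refine (mul_le_mul_of_nonneg_right (hA (st p) j l) (by positivity)).trans ?_
      have hp0 : (0 : ℝ) < p := by exact_mod_cast p.2.pos
      rw [Real.rpow_neg hp0.le, ← Real.sqrt_eq_rpow, ← div_eq_mul_inv,
        div_le_iff₀ (Real.sqrt_pos.2 hp0)]
      refine le_trans ?_ (mul_le_mul_of_nonneg_left (Real.sqrt_le_sqrt h3) (by norm_num))
      rw [Real.sqrt_mul (by norm_num), Real.sqrt_sq hR]
      have h5 : (4 / 3 : ℝ) ≤ Real.sqrt 2 := Real.le_sqrt_of_sq_le (by norm_num)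
      nlinarith
  obtain ⟨h1, h1d, h1s⟩ := euler (fun p l => A (x p) l * χ p) R (fun p l => by
    rw [norm_mul]
    obtain ⟨j, hj⟩ := S.mem p
    rw [hj]
    exact (mul_le_of_le_one_right (norm_nonneg _) (χ.norm_le_one _)).trans (hA _ j l)) hx
  obtain ⟨h2, h2d, h2s⟩ := euler (ι := Fin 1) (fun p _ => χ p) 1 (fun p _ => χ.norm_le_one _)
    (fun p _ => (mul_le_of_le_one_left (by positivity) (χ.norm_le_one _)).trans (hbase p))
  refine ⟨fun s => D s + h1 s - c * h2 s, ?_, fun s hs => ?_⟩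
  · refine ((hD1.mono fun s (hs : 1 / 2 < s.re) => ?_).add h1d).sub (h2d.const_mul c)
    change 0 < s.re
    linarith
  · obtain ⟨-, -, h3⟩ := h1s s hs
    obtain ⟨-, h4, -⟩ := h2s s hs
    have h5 := h4.tsum_eq
    simp only [Finset.univ_unique, Fin.default_eq_zero, Finset.sum_singleton] at h5
    have h6 : ∑' p : Nat.Primes, ∑ l, A (x p) l * χ p * (p : ℂ) ^ (-s) =
        D s + c * ∑' p : Nat.Primes, χ p * (p : ℂ) ^ (-s) := by
      rw [← hD2 s hs]
      refine tsum_congr fun p => ?_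
      rw [Finset.sum_mul, Finset.sum_mul]
    rw [h6] at h3
    convert h3 using 2
    rw [h5]
    ring

end Follows

end Pool.Agent.H414.E
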