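import Pool.Agent.H414.E.Comb

/-!
Densities in arithmetic progressions.
-/

set_option autoImplicit false

namespace Pool.Agent.H414.E

open Finset Filter Topology

namespace Follows
variable {X : Type*} {n : ℕ → ℕ} {w : (m : ℕ) → Fin (n m) → ℝ}
  {y : (m : ℕ) → Fin (n m) → X} {N0 : ℕ} {x : ℕ → X} {st : ℕ → ℕ}
  (S : Follows n w y N0 x st)
include S

theorem density (f : X → ℂ) (M : ℝ) (hM : ∀ m j, ‖f (y m j)‖ ≤ M) (δ : ℂ)
    (hδ : Tendsto (fun m => mean w y m f) atTop (𝓝 δ)) (q a : ℕ) (ha : a < q)
    (hc : a.Coprime q) :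
    Tendsto (fun N => (∑ p ∈ (range N).filter (fun p => p.Prime ∧ p % q = a), f (x p)) /
      (piA N q a : ℂ)) atTop (𝓝 δ) := by
  classical
  have hq : 0 < q := by omega
  have hM0 := S.M_nonneg hM
  have hmM : ∀ m, ‖mean w y m f‖ ≤ M := mean_le S.nonneg S.one f M hM
  have hδM : ‖δ‖ ≤ M := le_of_tendsto hδ.norm (Eventually.of_forall hmM)
  obtain ⟨C, hC⟩ := S.disc q hq
  rw [Metric.tendsto_atTop]
  intro ε hε
  obtain ⟨m1, hm1⟩ := Metric.tendsto_atTop.1 hδ (ε / 4) (by positivity)
  obtain ⟨B, hB⟩ := eventually_atTop.1 (S.top.eventually_ge_atTop m1)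
  have e1 := S.top.eventually_ge_atTop q
  have e2 : ∀ᶠ N in atTop, 4 * M / ε ≤ (st N : ℝ) :=
    (tendsto_natCast_atTop_atTop.comp S.top).eventually_ge_atTop _
  have e3 : ∀ᶠ N in atTop, 4 * (M * |C| + B * (2 * M) + 1) / ε < piA N q a :=
    (piA_tendsto q a ha hc).eventually_gt_atTop _
  obtain ⟨N1, hN1⟩ := eventually_atTop.1 (e1.and (e2.and e3))
  refine ⟨N1, fun N hN => ?_⟩
  obtain ⟨f1, f2, f3⟩ := hN1 N hN
  have hpi : (0 : ℝ) < piA N q a := lt_of_le_of_lt (by positivity) f3
  have h1 : ∑ p ∈ (range N).filter (fun p => p.Prime ∧ p % q = a), f (x p) =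
      ∑ p ∈ (range N).filter Nat.Prime, (if p % q = a then (1 : ℂ) else 0) *
        (f (x p) - mean w y (st p) f) +
      ∑ p ∈ (range N).filter (fun p => p.Prime ∧ p % q = a), (mean w y (st p) f - δ) +
      δ * piA N q a := by
    have h2 : ∑ p ∈ (range N).filter Nat.Prime, (if p % q = a then (1 : ℂ) else 0) *
        (f (x p) - mean w y (st p) f) = ∑ p ∈ (range N).filter (fun p => p.Prime ∧ p % q = a),
        (f (x p) - mean w y (st p) f) := by
      rw [← Finset.filter_filter, Finset.sum_filter (p := fun p => p % q = a)]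
      refine Finset.sum_congr rfl fun p _ => ?_
      split_ifs <;> simp
    have h3 : δ * piA N q a = ∑ p ∈ (range N).filter (fun p => p.Prime ∧ p % q = a), δ := by
      rw [Finset.sum_const, nsmul_eq_mul, mul_comm, piA]
    rw [h2, h3, ← Finset.sum_add_distrib, ← Finset.sum_add_distrib]
    exact Finset.sum_congr rfl fun p _ => by ring
  have h2 := hC (fun p => if p % q = a then (1 : ℂ) else 0) (fun p => by
    split_ifs <;> simp) (fun p p' h => by simp only [h]) f M hM N
  have h3 : ‖∑ p ∈ (range N).filter (fun p => p.Prime ∧ p % q = a), (mean w y (st p) f - δ)‖ ≤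
      B * (2 * M) + ε / 4 * piA N q a := by
    calc _ ≤ ∑ p ∈ (range N).filter (fun p => p.Prime ∧ p % q = a),
          ((if p < B then 2 * M else 0) + ε / 4) := by
          refine (norm_sum_le _ _).trans (Finset.sum_le_sum fun p _ => ?_)
          split_ifs with h
          · refine (norm_sub_le _ _).trans ?_
            have := hmM (st p)
            linarith
          · have := (hm1 (st p) (hB p (by omega))).le
            rw [dist_eq_norm] at this
            linarith
      _ = ((((range N).filter (fun p => p.Prime ∧ p % q = a)).filter (fun p => p < B)).card : ℝ) *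
          (2 * M) + ε / 4 * piA N q a := by
          rw [Finset.sum_add_distrib, ← Finset.sum_filter, Finset.sum_const, Finset.sum_const,
            nsmul_eq_mul, nsmul_eq_mul, piA, mul_comm (ε / 4)]
      _ ≤ _ := by
          gcongr
          calc _ ≤ (range B).card := Finset.card_le_card fun p hp => by
                simp only [Finset.mem_filter, Finset.mem_range] at hp ⊢
                exact hp.2
            _ = B := Finset.card_range _
  have h4 : M * KK n (st N) ≤ ε / 4 * piA N q a := by
    have h5 := S.pi N q a f1 ha hc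
    have h6 : M ≤ ε / 4 * (st N + 1) := by
      rw [div_le_iff₀ hε] at f2
      nlinarith
    calc M * KK n (st N) ≤ ε / 4 * (st N + 1) * KK n (st N) :=
          mul_le_mul_of_nonneg_right h6 (KK_nonneg n _)
      _ = ε / 4 * ((st N + 1) * KK n (st N)) := by ring
      _ ≤ _ := mul_le_mul_of_nonneg_left h5 (by positivity)
  have h5 : M * |C| + B * (2 * M) < ε / 4 * piA N q a := by
    rw [div_lt_iff₀ hε] at f3
    linarith
  rw [dist_eq_norm]
  have h6 : (∑ p ∈ (range N).filter (fun p => p.Prime ∧ p % q = a), f (x p)) / (piA N q a : ℂ) - δ =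
      ((∑ p ∈ (range N).filter (fun p => p.Prime ∧ p % q = a), f (x p)) - δ * piA N q a) /
        (piA N q a : ℂ) := by
    have : (piA N q a : ℂ) ≠ 0 := by exact_mod_cast hpi.ne'
    field_simp
  rw [h6, h1, add_sub_cancel_right, norm_div, Complex.norm_natCast, div_lt_iff₀ hpi]
  refine (norm_add_le _ _).trans_lt ?_
  have h7 : M * (C + KK n (st N)) ≤ M * |C| + M * KK n (st N) := by
    have := mul_le_mul_of_nonneg_left (le_abs_self C) hM0
    linarith
  have h8 : 0 < ε * piA N q a := mul_pos hε hpi
  linarith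

/-- Real version. -/
theorem density_real (f : X → ℝ) (M : ℝ) (hM : ∀ m j, |f (y m j)| ≤ M) (δ : ℝ)
    (hδ : Tendsto (fun m => ∑ j, w m j * f (y m j)) atTop (𝓝 δ)) (q a : ℕ) (ha : a < q)
    (hc : a.Coprime q) :
    Tendsto (fun N => (∑ p ∈ (range N).filter (fun p => p.Prime ∧ p % q = a), f (x p)) /
      (piA N q a : ℝ)) atTop (𝓝 δ) := by
  have h1 := S.density (fun t => (f t : ℂ)) M (fun m j => by
    rw [Complex.norm_real]; exact hM m j) (δ : ℂ) (by
      have h2 := (Complex.continuous_ofReal.tendsto δ).comp hδ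
      refine h2.congr fun m => ?_
      simp [mean, Function.comp]) q a ha hc
  have h2 := (Complex.continuous_re.tendsto _).comp h1
  rw [Complex.ofReal_re] at h2
  refine h2.congr fun N => ?_
  simp only [Function.comp]
  rw [← Complex.ofReal_natCast, ← Complex.ofReal_sum, ← Complex.ofReal_div, Complex.ofReal_re]

/-- The density of the primes whose parameter is in a set. -/
theorem density_set (E : Set X) [DecidablePred (· ∈ E)] (δ : ℝ)
    (hδ : Tendsto (fun m => ∑ j, w m j * (if y m j ∈ E then 1 else 0)) atTop (𝓝 δ)) (q a : ℕ)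
    (ha : a < q) (hc : a.Coprime q) :
    Tendsto (fun N => (((range N).filter (fun p => (p.Prime ∧ p % q = a) ∧ x p ∈ E)).card : ℝ) /
      (piA N q a : ℝ)) atTop (𝓝 δ) := by
  have h1 := S.density_real (fun t => if t ∈ E then 1 else 0) 1 (fun m j => by
    split_ifs <;> simp) δ hδ q a ha hc
  refine h1.congr fun N => ?_
  congr 1
  have h2 : (range N).filter (fun p => (p.Prime ∧ p % q = a) ∧ x p ∈ E) =
      ((range N).filter (fun p => p.Prime ∧ p % q = a)).filter (fun p => x p ∈ E) :=
    (Finset.filter_filter _ _ _).symm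
  rw [h2, Finset.card_filter, Nat.cast_sum]
  refine Finset.sum_congr rfl fun p _ => ?_
  split_ifs <;> simp

end Follows

end Pool.Agent.H414.E
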