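import Mathlib

/-!
Sequences with bounded discrepancy for given weights.
-/

set_option autoImplicit false

namespace Pool.Agent.H414.E

open Finset

section
variable {n : ℕ} [NeZero n] (w : Fin n → ℝ)

/-- The index with the largest deficit. -/
noncomputable def pick (c : Fin n → ℕ) (N : ℕ) : Fin n :=
  (Finset.exists_max_image Finset.univ (fun i => w i * (N + 1) - c i)
    Finset.univ_nonempty).choose

theorem pick_max (c : Fin n → ℕ) (N : ℕ) (j : Fin n) :
    w j * (N + 1) - c j ≤ w (pick w c N) * (N + 1) - c (pick w c N) :=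
  (Finset.exists_max_image Finset.univ (fun i => w i * (N + 1) - c i)
    Finset.univ_nonempty).choose_spec.2 j (Finset.mem_univ j)

/-- The counts after `N` steps. -/
noncomputable def cnt : ℕ → Fin n → ℕ
  | 0 => fun _ => 0
  | N + 1 => fun i => cnt N i + if pick w (cnt N) N = i then 1 else 0

/-- The greedy sequence. -/
noncomputable def grd (N : ℕ) : Fin n := pick w (cnt w N) N

theorem card_grd (N : ℕ) (i : Fin n) :
    ((Finset.range N).filter fun l => grd w l = i).card = cnt w N i := by
  induction N with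
  | zero => simp [cnt]
  | succ N ih =>
    rw [Finset.range_add_one, Finset.filter_insert]
    by_cases h : grd w N = i
    · rw [if_pos h, Finset.card_insert_of_notMem (by simp), ih]
      simp only [cnt]
      rw [if_pos]
      exact h
    · rw [if_neg h, ih]
      simp only [cnt]
      rw [if_neg]
      · rfl
      · exact h

theorem sum_cnt (N : ℕ) : ∑ i, (cnt w N i : ℝ) = N := by
  induction N with
  | zero => simp [cnt]
  | succ N ih =>
    simp only [cnt, Nat.cast_add, Nat.cast_ite, Nat.cast_one, Nat.cast_zero]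
    rw [Finset.sum_add_distrib, ih, Finset.sum_ite_eq]
    simp

theorem lower (hw : ∀ i, 0 ≤ w i) (hs : ∑ i, w i = 1) (N : ℕ) (i : Fin n) :
    -1 ≤ w i * N - cnt w N i := by
  induction N generalizing i with
  | zero => simp [cnt]
  | succ N ih =>
    by_cases h : pick w (cnt w N) N = i
    · have hn : (0 : ℝ) < n := by exact_mod_cast Nat.pos_of_ne_zero (NeZero.ne n)
      have h1 : ∑ j, (w j * (N + 1) - cnt w N j) = 1 := by
        rw [Finset.sum_sub_distrib, ← Finset.sum_mul, hs, sum_cnt]
        ring
      have h2 : ∑ j, (w j * (N + 1) - cnt w N j) ≤ ∑ _j : Fin n, (w i * (N + 1) - cnt w N i) := by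
        refine Finset.sum_le_sum fun j _ => ?_
        rw [← h]
        exact pick_max w (cnt w N) N j
      rw [h1, Finset.sum_const, Finset.card_univ, Fintype.card_fin, nsmul_eq_mul] at h2
      have h3 : 0 ≤ w i * (N + 1) - cnt w N i := by
        by_contra h4
        push Not at h4
        nlinarith
      simp only [cnt]
      rw [if_pos h]
      push_cast
      linarith
    · simp only [cnt]
      rw [if_neg h]
      push_cast
      have := ih i
      have := hw i
      nlinarith

theorem upper (hw : ∀ i, 0 ≤ w i) (hs : ∑ i, w i = 1) (N : ℕ) (i : Fin n) :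
    w i * N - cnt w N i ≤ n := by
  have h1 : ∑ j, (w j * N - cnt w N j) = 0 := by
    rw [Finset.sum_sub_distrib, ← Finset.sum_mul, hs, sum_cnt]
    ring
  have h2 : w i * N - cnt w N i = - ∑ j ∈ Finset.univ.erase i, (w j * N - cnt w N j) := by
    rw [← Finset.add_sum_erase _ _ (Finset.mem_univ i)] at h1
    linarith
  rw [h2, ← Finset.sum_neg_distrib]
  calc ∑ j ∈ Finset.univ.erase i, -(w j * N - cnt w N j)
      ≤ ∑ _j ∈ Finset.univ.erase i, (1 : ℝ) := by
        refine Finset.sum_le_sum fun j _ => ?_
        have := lower w hw hs N j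
        linarith
    _ ≤ n := by
        rw [Finset.sum_const, nsmul_eq_mul, mul_one]
        exact_mod_cast (Finset.card_le_univ _).trans (by simp)

end

/-- A sequence of indices in which every index `i` occurs with the frequency `w i`, up to a bounded
error. -/
theorem greedy {n : ℕ} (w : Fin n → ℝ) (hw : ∀ i, 0 ≤ w i) (hs : ∑ i, w i = 1) :
    ∃ g : ℕ → Fin n, ∀ (N : ℕ) (i : Fin n),
      |(((Finset.range N).filter fun l => g l = i).card : ℝ) - w i * N| ≤ n := by
  have hn : n ≠ 0 := by
    rintro rfl
    simp at hs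
  haveI : NeZero n := ⟨hn⟩
  refine ⟨grd w, fun N i => ?_⟩
  rw [card_grd, abs_le]
  have h1 := lower w hw hs N i
  have h2 := upper w hw hs N i
  have h3 : (1 : ℝ) ≤ n := by exact_mod_cast Nat.pos_of_ne_zero hn
  constructor <;> linarith

/-- The sums of any function along a sequence with small discrepancy. -/
theorem greedy_sum {n : ℕ} {X : Type*} (w : Fin n → ℝ) (hw : ∀ i, 0 ≤ w i) (hs : ∑ i, w i = 1)
    (y : Fin n → X) :
    ∃ z : ℕ → X, (∀ l, ∃ j, z l = y j) ∧ ∀ (f : X → ℂ) (M : ℝ), (∀ j, ‖f (y j)‖ ≤ M) → ∀ R : ℕ,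
      ‖∑ l ∈ Finset.range R, (f (z l) - ∑ j, (w j : ℂ) * f (y j))‖ ≤ M * (n : ℝ) ^ 2 := by
  obtain ⟨g, hg⟩ := greedy w hw hs
  refine ⟨fun l => y (g l), fun l => ⟨g l, rfl⟩, fun f M hM R => ?_⟩
  have h1 : ∑ l ∈ Finset.range R, (f (y (g l)) - ∑ j, (w j : ℂ) * f (y j)) =
      ∑ j, ((((Finset.range R).filter fun l => g l = j).card : ℂ) - w j * R) * f (y j) := by
    rw [Finset.sum_sub_distrib, Finset.sum_const, Finset.card_range, nsmul_eq_mul,
      ← Finset.sum_fiberwise (Finset.range R) g, Finset.mul_sum, ← Finset.sum_sub_distrib]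
    refine Finset.sum_congr rfl fun j _ => ?_
    rw [Finset.sum_congr rfl (g := fun _ => f (y j)) (fun l hl => by
      rw [(Finset.mem_filter.1 hl).2]), Finset.sum_const, nsmul_eq_mul]
    ring
  rw [h1]
  calc _ ≤ ∑ j : Fin n, (n : ℝ) * M := by
        refine (norm_sum_le _ _).trans (Finset.sum_le_sum fun j _ => ?_)
        rw [norm_mul]
        refine mul_le_mul ?_ (hM j) (norm_nonneg _) (Nat.cast_nonneg _)
        have := hg R j
        rw [← Real.norm_eq_abs, ← Complex.norm_real] at this
        push_cast at this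
        exact this
    _ = M * (n : ℝ) ^ 2 := by
        rw [Finset.sum_const, Finset.card_univ, Fintype.card_fin, nsmul_eq_mul]
        ring

end Pool.Agent.H414.E
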