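import Pool.Agent.H414.E.Greedy

/-!
Sequences indexed by the primes with small discrepancy in all arithmetic progressions.
-/

set_option autoImplicit false

namespace Pool.Agent.H414.E

open Finset Filter Topology

/-- A slowly increasing function. -/
theorem stages (Q : ℕ → ℕ → Prop) (hQ : ∀ m, ∀ᶠ N in atTop, Q m N) :
    ∃ st : ℕ → ℕ, Monotone st ∧ Tendsto st atTop atTop ∧ ∀ N, st N = 0 ∨ Q (st N) N := by
  classical
  choose B hB using fun m => eventually_atTop.1 (hQ m)
  refine ⟨fun N => Nat.findGreatest (fun m => ∀ l ≤ m, B l ≤ N) N, ?_, ?_, ?_⟩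
  · intro N N' h
    exact Nat.findGreatest_mono (fun m hm l hl => (hm l hl).trans h) h
  · refine tendsto_atTop.2 fun m => ?_
    filter_upwards [eventually_ge_atTop (m + ∑ l ∈ range (m + 1), B l)] with N hN
    refine Nat.le_findGreatest (by omega) fun l hl => ?_
    have : B l ≤ ∑ l ∈ range (m + 1), B l :=
      Finset.single_le_sum (f := B) (fun _ _ => Nat.zero_le _) (by simpa using by omega)
    omega
  · intro N
    by_cases h : Nat.findGreatest (fun m => ∀ l ≤ m, B l ≤ N) N = 0
    · exact Or.inl h
    · right
      exact hB _ _ (Nat.findGreatest_of_ne_zero rfl h _ le_rfl)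

section rank
variable {κ : Type*} [DecidableEq κ] (key : ℕ → κ)

/-- The number of the smaller primes with the same key. -/
def rank (p : ℕ) : ℕ := ((range p).filter fun p' => p'.Prime ∧ key p' = key p).card

theorem rank_sum (F : ℕ → ℂ) (k : κ) (N : ℕ) :
    ∑ p ∈ (range N).filter (fun p => p.Prime ∧ key p = k), F (rank key p) =
      ∑ l ∈ range ((range N).filter fun p => p.Prime ∧ key p = k).card, F l := by
  induction N with
  | zero => simp
  | succ N ih =>
    rw [range_add_one, filter_insert]
    by_cases h : N.Prime ∧ key N = k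
    · rw [if_pos h, sum_insert (by simp), card_insert_of_notMem (by simp), sum_range_succ, ih,
        add_comm, rank, h.2]
    · rw [if_neg h, ih]

end rank

/-- The mean of `f` at the stage `m`. -/
noncomputable def mean {X : Type*} {n : ℕ → ℕ} (w : (m : ℕ) → Fin (n m) → ℝ)
    (y : (m : ℕ) → Fin (n m) → X) (m : ℕ) (f : X → ℂ) : ℂ := ∑ j, (w m j : ℂ) * f (y m j)

theorem mean_le {X : Type*} {n : ℕ → ℕ} {w : (m : ℕ) → Fin (n m) → ℝ}
    {y : (m : ℕ) → Fin (n m) → X} (hw : ∀ m i, 0 ≤ w m i) (hs : ∀ m, ∑ i, w m i = 1)
    (f : X → ℂ) (M : ℝ) (hM : ∀ m j, ‖f (y m j)‖ ≤ M) (m : ℕ) : ‖mean w y m f‖ ≤ M := by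
  calc ‖mean w y m f‖ ≤ ∑ j, w m j * M := by
        refine (norm_sum_le _ _).trans (Finset.sum_le_sum fun j _ => ?_)
        rw [norm_mul, Complex.norm_real, Real.norm_eq_abs, abs_of_nonneg (hw m j)]
        exact mul_le_mul_of_nonneg_left (hM m j) (hw m j)
    _ = M := by rw [← Finset.sum_mul, hs, one_mul]

/-- The number of the primes below `N` that are `a` modulo `q`. -/
def piA (N q a : ℕ) : ℕ := ((range N).filter fun p => p.Prime ∧ p % q = a).card

theorem piA_tendsto (q a : ℕ) (ha : a < q) (hc : a.Coprime q) :
    Tendsto (fun N => (piA N q a : ℝ)) atTop atTop := by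
  have hq : NeZero q := ⟨by omega⟩
  have h1 : {p : ℕ | p.Prime ∧ (p : ZMod q) = (a : ZMod q)}.Infinite :=
    Nat.infinite_setOfPred_prime_and_eq_mod ((ZMod.isUnit_iff_coprime a q).2 hc)
  have h2 : {p : ℕ | p.Prime ∧ p % q = a} = {p : ℕ | p.Prime ∧ (p : ZMod q) = (a : ZMod q)} := by
    ext p
    simp only [Set.mem_ofPred_eq, ZMod.natCast_eq_natCast_iff', Nat.mod_eq_of_lt ha]
  rw [← h2] at h1
  refine tendsto_natCast_atTop_atTop.comp (tendsto_atTop.2 fun b => ?_)
  obtain ⟨t, ht, htb⟩ := h1.exists_subset_card_eq b
  obtain ⟨B, hB⟩ := t.bddAbove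
  filter_upwards [eventually_gt_atTop B] with N hN
  rw [← htb]
  refine Finset.card_le_card fun p hp => ?_
  have h3 := ht hp
  have h4 := hB hp
  simp only [Finset.mem_filter, Finset.mem_range]
  exact ⟨by omega, h3⟩

section main
variable {X : Type*} (n : ℕ → ℕ) (w : (m : ℕ) → Fin (n m) → ℝ) (y : (m : ℕ) → Fin (n m) → X)

/-- The total cost of the first stages. -/
def KK (m : ℕ) : ℝ := ∑ l ∈ range (m + 1), (l.factorial : ℝ) * (n l : ℝ) ^ 2

theorem KK_nonneg (m : ℕ) : 0 ≤ KK n m := Finset.sum_nonneg fun _ _ => by positivity

theorem main (hw : ∀ m i, 0 ≤ w m i) (hs : ∀ m, ∑ i, w m i = 1) (N0 : ℕ) :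
    ∃ (x : ℕ → X) (st : ℕ → ℕ), Tendsto st atTop atTop ∧ (∀ p < N0, st p = 0) ∧
      (∀ p, ∃ j, x p = y (st p) j) ∧
      (∀ q : ℕ, 0 < q → ∃ C : ℝ, ∀ G : ℕ → ℂ, (∀ p, ‖G p‖ ≤ 1) →
        (∀ p p', p % q = p' % q → G p = G p') → ∀ (f : X → ℂ) (M : ℝ),
        (∀ m j, ‖f (y m j)‖ ≤ M) → ∀ N : ℕ,
        ‖∑ p ∈ (range N).filter Nat.Prime, G p * (f (x p) - mean w y (st p) f)‖ ≤
          M * (C + KK n (st N))) ∧
      (∀ N, st N = 0 ∨ KK n (st N) ≤ Real.log (N + 1)) ∧
      (∀ N q a, q ≤ st N → a < q → a.Coprime q →
        (st N + 1) * KK n (st N) ≤ piA N q a) := by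
  classical
  obtain ⟨st, hmono, htop, hst⟩ := stages (fun m N => N0 ≤ N ∧ KK n m ≤ Real.log (N + 1) ∧
    ∀ q ≤ m, ∀ a < q, a.Coprime q → (m + 1) * KK n m ≤ piA N q a) (by
      intro m
      refine (eventually_ge_atTop N0).and (Filter.Eventually.and ?_ ?_)
      · have h1 : Tendsto (fun N : ℕ => Real.log ((N : ℝ) + 1)) atTop atTop :=
          Real.tendsto_log_atTop.comp
            (tendsto_atTop_add_const_right _ _ tendsto_natCast_atTop_atTop)
        exact h1.eventually_ge_atTop _
      · have h2 : ∀ q ∈ range (m + 1), ∀ᶠ N in atTop, ∀ a < q, a.Coprime q →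
            (m + 1) * KK n m ≤ piA N q a := by
          intro q _
          have h3 : ∀ a ∈ range q, ∀ᶠ N in atTop, a.Coprime q →
              (m + 1) * KK n m ≤ piA N q a := by
            intro a ha
            by_cases hc : a.Coprime q
            · filter_upwards [(piA_tendsto q a (Finset.mem_range.1 ha) hc).eventually_ge_atTop
                ((m + 1) * KK n m)] with N hN _ using hN
            · exact Eventually.of_forall fun N h => absurd h hc
          filter_upwards [(Finset.eventually_all (range q)).2 h3] with N hN a ha
          exact hN a (Finset.mem_range.2 ha)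
        filter_upwards [(Finset.eventually_all (range (m + 1))).2 h2] with N hN q hq
        exact hN q (Finset.mem_range.2 (by omega)))
  choose z hz1 hz2 using fun m => greedy_sum (w m) (hw m) (hs m) (y m)
  set key : ℕ → ℕ × ℕ := fun p => (st p, p % (st p).factorial) with hkey
  refine ⟨fun p => z (st p) (rank key p), st, htop, ?_, fun p => hz1 _ _, ?_, ?_, ?_⟩
  · intro p hp
    rcases hst p with h | h
    · exact h
    · omega
  · intro q hq
    obtain ⟨B, hB⟩ := eventually_atTop.1 (htop.eventually_ge_atTop q)
    refine ⟨2 * B, fun G hG hper f M hM N => ?_⟩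
    have hn0 : ∀ m, ∃ j : Fin (n m), True := by
      intro m
      by_contra h
      push Not at h
      have := hs m
      rw [Finset.sum_eq_zero (fun i _ => (h i).elim)] at this
      exact zero_ne_one this
    have hM0 : 0 ≤ M := by
      obtain ⟨j, -⟩ := hn0 0
      exact (norm_nonneg _).trans (hM 0 j)
    have hf : ∀ p, ‖f (z (st p) (rank key p)) - mean w y (st p) f‖ ≤ 2 * M := by
      intro p
      obtain ⟨j, hj⟩ := hz1 (st p) (rank key p)
      rw [hj]
      refine (norm_sub_le _ _).trans ?_
      have := mean_le hw hs f M hM (st p)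
      have := hM (st p) j
      linarith
    -- split according to the stage
    have h1 : ∑ p ∈ (range N).filter Nat.Prime,
        G p * (f (z (st p) (rank key p)) - mean w y (st p) f) =
        ∑ m ∈ range (st N + 1), ∑ p ∈ ((range N).filter Nat.Prime).filter (fun p => st p = m),
          G p * (f (z (st p) (rank key p)) - mean w y (st p) f) := by
      refine (Finset.sum_fiberwise_of_maps_to (fun p hp => ?_) _).symm
      rw [Finset.mem_filter, Finset.mem_range] at hp
      have := hmono hp.1.le
      rw [Finset.mem_range]
      omega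
    rw [h1]
    -- the early stages
    have h2 : ∀ m ∈ range (st N + 1), ‖∑ p ∈ ((range N).filter Nat.Prime).filter
        (fun p => st p = m), G p * (f (z (st p) (rank key p)) - mean w y (st p) f)‖ ≤
        ((range B).filter fun p => st p = m).card * (2 * M) +
          (m.factorial : ℝ) * (M * (n m : ℝ) ^ 2) := by
      intro m _
      by_cases hmq : m < q
      · refine le_trans ?_ (le_add_of_nonneg_right (by positivity))
        calc _ ≤ ∑ p ∈ ((range N).filter Nat.Prime).filter (fun p => st p = m), 2 * M := by
              refine (norm_sum_le _ _).trans (Finset.sum_le_sum fun p _ => ?_)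
              rw [norm_mul]
              calc _ ≤ 1 * (2 * M) := mul_le_mul (hG p) (hf p) (norm_nonneg _) zero_le_one
                _ = _ := one_mul _
          _ = ((((range N).filter Nat.Prime).filter (fun p => st p = m)).card : ℝ) * (2 * M) := by
              rw [Finset.sum_const, nsmul_eq_mul]
          _ ≤ _ := by
              refine mul_le_mul_of_nonneg_right ?_ (by positivity)
              norm_cast
              refine Finset.card_le_card fun p hp => ?_
              simp only [Finset.mem_filter, Finset.mem_range] at hp ⊢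
              refine ⟨?_, hp.2⟩
              by_contra h
              push Not at h
              have := hB p h
              omega
      · push Not at hmq
        refine le_trans ?_ (le_add_of_nonneg_left (by positivity))
        have h3 : ∑ p ∈ ((range N).filter Nat.Prime).filter (fun p => st p = m),
            G p * (f (z (st p) (rank key p)) - mean w y (st p) f) =
            ∑ r ∈ range m.factorial, G r * ∑ p ∈ (range N).filter
              (fun p => p.Prime ∧ key p = (m, r)), (f (z m (rank key p)) - mean w y m f) := by
          rw [← Finset.sum_fiberwise_of_maps_to (t := range m.factorial)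
            (g := fun p => p % m.factorial)
            (fun p _ => Finset.mem_range.2 (Nat.mod_lt _ (Nat.factorial_pos _)))]
          refine Finset.sum_congr rfl fun r _ => ?_
          rw [Finset.mul_sum, Finset.filter_filter, Finset.filter_filter]
          refine Finset.sum_congr ?_ fun p hp => ?_
          · ext p
            simp only [Finset.mem_filter, hkey, Prod.mk.injEq]
            constructor
            · rintro ⟨h, h1, h2, h3⟩
              rw [h2]
              exact ⟨h, h1, rfl, h3⟩
            · rintro ⟨h, h1, h2, h3⟩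
              rw [h2] at h3
              exact ⟨h, h1, h2, h3⟩
          · simp only [Finset.mem_filter, hkey, Prod.mk.injEq] at hp
            obtain ⟨_, _, h4, h5⟩ := hp
            rw [h4]
            congr 1
            refine hper _ _ ?_
            rw [h4] at h5
            rw [← h5, Nat.mod_mod_of_dvd _ (Nat.dvd_factorial hq hmq)]
        rw [h3]
        calc _ ≤ ∑ r ∈ range m.factorial, M * (n m : ℝ) ^ 2 := by
              refine (norm_sum_le _ _).trans (Finset.sum_le_sum fun r _ => ?_)
              rw [norm_mul, rank_sum key (fun l => f (z m l) - mean w y m f)]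
              calc _ ≤ 1 * (M * (n m : ℝ) ^ 2) := mul_le_mul (hG r)
                    (hz2 m f M (hM m) _) (norm_nonneg _) zero_le_one
                _ = _ := one_mul _
          _ = _ := by rw [Finset.sum_const, Finset.card_range, nsmul_eq_mul]
    calc _ ≤ ∑ m ∈ range (st N + 1), (((range B).filter fun p => st p = m).card * (2 * M) +
          (m.factorial : ℝ) * (M * (n m : ℝ) ^ 2)) :=
          (norm_sum_le _ _).trans (Finset.sum_le_sum h2)
      _ = (∑ m ∈ range (st N + 1), (((range B).filter fun p => st p = m).card : ℝ)) * (2 * M) +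
          M * KK n (st N) := by
          rw [Finset.sum_add_distrib, Finset.sum_mul, KK, Finset.mul_sum]
          congr 1
          exact Finset.sum_congr rfl fun m _ => by ring
      _ ≤ B * (2 * M) + M * KK n (st N) := by
          refine add_le_add (mul_le_mul_of_nonneg_right ?_ (by positivity)) le_rfl
          norm_cast
          calc _ = (((range (st N + 1)).biUnion fun m => (range B).filter fun p => st p = m)).card
                := by
                rw [Finset.card_biUnion]
                intro i _ j _ hij
                refine Finset.disjoint_left.2 fun p h1 h2 => hij ?_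
                rw [← (Finset.mem_filter.1 h1).2, ← (Finset.mem_filter.1 h2).2]
            _ ≤ (range B).card := Finset.card_le_card fun p hp => by
                rw [Finset.mem_biUnion] at hp
                obtain ⟨m, _, hm⟩ := hp
                exact (Finset.mem_filter.1 hm).1
            _ = B := Finset.card_range _
      _ = M * (2 * B + KK n (st N)) := by ring
  · intro N
    rcases hst N with h | h
    · exact Or.inl h
    · exact Or.inr h.2.1
  · intro N q a hq ha hc
    rcases hst N with h | h
    · omega
    · exact h.2.2 q hq a ha hc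

end main

end Pool.Agent.H414.E
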